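import Mathlib

/-!
A Hausdorff 2-pseudocompact, pseudocompact, Baire paratopological abelian group that is not a topological group
(additive version): the Sigma-product of `omega_1` copies of `∏ k, ZMod (k+1)` with base `x + (V ∩ S)`, where `S` is the
cone of the elements whose support has a maximum and whose value there is a positive integer.
-/

set_option autoImplicit false
set_option linter.unusedSectionVars false

namespace Pool.Agent.TH163.ParaTop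

open Set Topology

/-- the compact coordinate group -/
abbrev C : Type := (k : ℕ) → ZMod (k + 1)

lemma C_cast_ne {n : ℕ} (hn : 0 < n) : (n : C) ≠ 0 := by
  intro h
  have h1 := congrFun h n
  rw [Pi.natCast_apply, Pi.zero_apply, ZMod.natCast_eq_zero_iff] at h1
  have := Nat.le_of_dvd hn h1
  omega

variable (ι : Type) [LinearOrder ι]

/-- the Sigma-product -/
def Sig : AddSubgroup (ι → C) where
  carrier := {x | {i | x i ≠ 0}.Countable}
  zero_mem' := by simp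
  add_mem' := by
    intro x y hx hy
    refine (hx.union hy).mono ?_
    intro i hi
    by_contra h
    simp only [mem_union, mem_ofPred_eq, not_or, not_not] at h
    apply hi
    show x i + y i = 0
    rw [h.1, h.2, add_zero]
  neg_mem' := by
    intro x hx
    refine hx.mono ?_
    intro i hi h
    apply hi
    show -(x i) = 0
    rw [h, neg_zero]

variable {ι}

/-- the cone -/
def S : Set (ι → C) := {x | x = 0 ∨ ∃ μ, (∃ n : ℕ, 0 < n ∧ x μ = n) ∧ ∀ i, μ < i → x i = 0}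

/-- basic neighbourhoods of zero in the product topology -/
def V (F : Finset ι) (K : ℕ) : Set (ι → C) := {x | ∀ i ∈ F, ∀ k < K, x i k = 0}

lemma S_zero : (0 : ι → C) ∈ S := Or.inl rfl

lemma S_add {x y : ι → C} (hx : x ∈ S) (hy : y ∈ S) : x + y ∈ S := by
  rcases hx with rfl | ⟨μ, ⟨m, hm, hxm⟩, hx⟩
  · rwa [zero_add]
  rcases hy with rfl | ⟨ν, ⟨n, hn, hyn⟩, hy⟩
  · rw [add_zero]; exact Or.inr ⟨μ, ⟨m, hm, hxm⟩, hx⟩
  rcases lt_trichotomy μ ν with h | h | h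
  · refine Or.inr ⟨ν, ⟨n, hn, ?_⟩, fun i hi => ?_⟩
    · rw [Pi.add_apply, hx ν h, zero_add, hyn]
    · rw [Pi.add_apply, hx i (h.trans hi), hy i hi, add_zero]
  · subst h
    refine Or.inr ⟨μ, ⟨m + n, by omega, ?_⟩, fun i hi => ?_⟩
    · rw [Pi.add_apply, hxm, hyn, Nat.cast_add]
    · rw [Pi.add_apply, hx i hi, hy i hi, add_zero]
  · refine Or.inr ⟨μ, ⟨m, hm, ?_⟩, fun i hi => ?_⟩
    · rw [Pi.add_apply, hy μ h, add_zero, hxm]
    · rw [Pi.add_apply, hx i hi, hy i (h.trans hi), add_zero]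

lemma V_add {F : Finset ι} {K : ℕ} {x y : ι → C} (hx : x ∈ V F K) (hy : y ∈ V F K) :
    x + y ∈ V F K := by
  intro i hi k hk
  rw [Pi.add_apply, Pi.add_apply, hx i hi k hk, hy i hi k hk, add_zero]

lemma V_mono {F F' : Finset ι} {K K' : ℕ} (hF : F ⊆ F') (hK : K ≤ K') {x : ι → C}
    (hx : x ∈ V F' K') : x ∈ V F K :=
  fun i hi k hk => hx i (hF hi) k (lt_of_lt_of_le hk hK)

/-- the basic open sets -/
def B (x : Sig ι) (F : Finset ι) (K : ℕ) : Set (Sig ι) :=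
  {z | (z.1 - x.1) ∈ S ∧ (z.1 - x.1) ∈ V F K}

instance instTop : TopologicalSpace (Sig ι) where
  IsOpen U := ∀ x ∈ U, ∃ (F : Finset ι) (K : ℕ), B x F K ⊆ U
  isOpen_univ := fun _ _ => ⟨∅, 0, subset_univ _⟩
  isOpen_inter := by
    classical
    rintro U U' hU hU' x ⟨hx, hx'⟩
    obtain ⟨F, K, h⟩ := hU x hx
    obtain ⟨F', K', h'⟩ := hU' x hx'
    refine ⟨F ∪ F', max K K', fun z hz => ⟨h ⟨hz.1, ?_⟩, h' ⟨hz.1, ?_⟩⟩⟩
    · exact V_mono Finset.subset_union_left (le_max_left _ _) hz.2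
    · exact V_mono Finset.subset_union_right (le_max_right _ _) hz.2
  isOpen_sUnion := by
    rintro 𝒰 h𝒰 x ⟨U, hU, hx⟩
    obtain ⟨F, K, h⟩ := h𝒰 U hU x hx
    exact ⟨F, K, h.trans (subset_sUnion_of_mem hU)⟩

lemma isOpen_iff' {U : Set (Sig ι)} : IsOpen U ↔ ∀ x ∈ U, ∃ (F : Finset ι) (K : ℕ), B x F K ⊆ U :=
  Iff.rfl

lemma self_mem_B (x : Sig ι) (F : Finset ι) (K : ℕ) : x ∈ B x F K := by
  refine ⟨?_, ?_⟩
  · rw [sub_self]; exact S_zero
  · rw [sub_self]; exact fun _ _ _ _ => rfl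

lemma B_trans {x y : Sig ι} {F : Finset ι} {K : ℕ} (hy : y ∈ B x F K) : B y F K ⊆ B x F K := by
  intro z hz
  have h : z.1 - x.1 = (z.1 - y.1) + (y.1 - x.1) := by abel
  exact ⟨by rw [h]; exact S_add hz.1 hy.1, by rw [h]; exact V_add hz.2 hy.2⟩

lemma isOpen_B (x : Sig ι) (F : Finset ι) (K : ℕ) : IsOpen (B x F K) :=
  fun _ hy => ⟨F, K, B_trans hy⟩

lemma mem_nhds_iff' {x : Sig ι} {U : Set (Sig ι)} :
    U ∈ 𝓝 x ↔ ∃ (F : Finset ι) (K : ℕ), B x F K ⊆ U := by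
  constructor
  · intro h
    obtain ⟨O, hOU, hO, hx⟩ := mem_nhds_iff.mp h
    obtain ⟨F, K, h1⟩ := hO x hx
    exact ⟨F, K, h1.trans hOU⟩
  · rintro ⟨F, K, h⟩
    exact mem_nhds_iff.mpr ⟨_, h, isOpen_B x F K, self_mem_B x F K⟩

lemma B_add {x y z w : Sig ι} {F : Finset ι} {K : ℕ} (hz : z ∈ B x F K) (hw : w ∈ B y F K) :
    z + w ∈ B (x + y) F K := by
  have h : (z + w).1 - (x + y).1 = (z.1 - x.1) + (w.1 - y.1) := by
    show (z.1 + w.1) - (x.1 + y.1) = _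
    abel
  exact ⟨by rw [h]; exact S_add hz.1 hw.1, by rw [h]; exact V_add hz.2 hw.2⟩

instance : ContinuousAdd (Sig ι) := by
  constructor
  rw [continuous_iff_continuousAt]
  rintro ⟨x, y⟩
  intro U hU
  obtain ⟨F, K, h⟩ := mem_nhds_iff'.mp hU
  have h1 : B x F K ×ˢ B y F K ∈ 𝓝 (x, y) :=
    prod_mem_nhds (mem_nhds_iff'.mpr ⟨F, K, Subset.rfl⟩) (mem_nhds_iff'.mpr ⟨F, K, Subset.rfl⟩)
  refine Filter.mem_map.mpr (Filter.mem_of_superset h1 ?_)
  rintro ⟨z, w⟩ ⟨hz, hw⟩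
  exact h (B_add hz hw)

instance : T2Space (Sig ι) := by
  constructor
  intro x y hxy
  obtain ⟨i, hi⟩ : ∃ i, x.1 i ≠ y.1 i := by
    by_contra h
    push Not at h
    exact hxy (Subtype.ext (funext h))
  obtain ⟨k, hk⟩ : ∃ k, x.1 i k ≠ y.1 i k := by
    by_contra h
    push Not at h
    exact hi (funext h)
  refine ⟨B x {i} (k+1), B y {i} (k+1), isOpen_B _ _ _, isOpen_B _ _ _, self_mem_B _ _ _,
    self_mem_B _ _ _, ?_⟩
  rw [Set.disjoint_left]
  intro z hz hz'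
  have h1 := hz.2 i (Finset.mem_singleton_self i) k (Nat.lt_succ_self k)
  have h2 := hz'.2 i (Finset.mem_singleton_self i) k (Nat.lt_succ_self k)
  rw [Pi.sub_apply, Pi.sub_apply, sub_eq_zero] at h1 h2
  exact hk (h1.symm.trans h2)

/-- the element with value `n` at `i` and zero elsewhere -/
def sg (i : ι) (n : ℤ) : Sig ι := ⟨fun j => if j = i then (n : C) else 0, by
  refine (Set.countable_singleton i).mono ?_
  intro j hj
  by_contra h
  exact hj (if_neg h)⟩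

lemma sg_self (i : ι) (n : ℤ) : (sg i n).1 i = (n : C) := if_pos rfl

lemma sg_ne {i j : ι} (h : j ≠ i) (n : ℤ) : (sg i n).1 j = 0 := if_neg h

/-- countable sets are strictly bounded -/
def Bdd (ι : Type) [LinearOrder ι] : Prop := ∀ s : Set ι, s.Countable → ∃ b, ∀ a ∈ s, a < b

lemma ladder (hι : Bdd ι) (A : Set ι) (hA : A.Countable) :
    ∃ (δ : ℕ → ι) (γ : ι), Function.Injective δ ∧ (∀ a ∈ A, ∀ j, a < δ j) ∧ ∀ j, δ j < γ := by
  obtain ⟨α, hα⟩ := hι A hA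
  have hs : ∀ a : ι, ∃ b, a < b := fun a => by
    obtain ⟨b, hb⟩ := hι {a} (Set.countable_singleton a)
    exact ⟨b, hb a rfl⟩
  choose nx hnx using hs
  let δ : ℕ → ι := fun n => nx^[n] α
  have hδ : StrictMono δ := strictMono_nat_of_lt_succ (fun n => by
    show nx^[n] α < nx^[n+1] α
    rw [Function.iterate_succ_apply']
    exact hnx _)
  obtain ⟨γ, hγ⟩ := hι (Set.range δ) (Set.countable_range δ)
  refine ⟨δ, γ, hδ.injective, fun a ha j => ?_, fun j => hγ _ ⟨j, rfl⟩⟩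
  exact lt_of_lt_of_le (hα a ha) (hδ.monotone (Nat.zero_le j))

lemma exists_notMem (δ : ℕ → ι) (hδ : Function.Injective δ) (F : Finset ι) : ∃ j, δ j ∉ F := by
  by_contra h
  push Not at h
  have h1 : (Set.range δ).Finite := F.finite_toSet.subset (by
    rintro _ ⟨j, rfl⟩; exact h j)
  exact (Set.infinite_range_of_injective hδ) h1

/-- cluster points -/
lemma cluster (x : ℕ → Sig ι) : ∃ y : Sig ι,
    (∀ i, (∀ m, (x m).1 i = 0) → y.1 i = 0) ∧
    ∀ (F : Finset ι) (K N : ℕ), ∃ m, N ≤ m ∧ ∀ i ∈ F, ∀ k < K, (x m).1 i k = y.1 i k := by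
  classical
  let 𝒰 : Ultrafilter ℕ := Filter.hyperfilter ℕ
  have h1 : ∀ (i : ι) (k : ℕ), ∃ v : ZMod (k+1), ∀ᶠ m in (𝒰 : Filter ℕ), (x m).1 i k = v := by
    intro i k
    obtain ⟨v, hv⟩ := (𝒰.map (fun m => (x m).1 i k)).eq_pure_of_finite
    refine ⟨v, ?_⟩
    have h2 : ({v} : Set (ZMod (k+1))) ∈ (𝒰.map (fun m => (x m).1 i k)) := by
      rw [hv]; exact Set.mem_singleton v
    exact h2
  choose y hy using h1
  have hy0 : ∀ i, (∀ m, (x m).1 i = 0) → y i = 0 := by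
    intro i hi
    funext k
    obtain ⟨m, hm⟩ := (hy i k).exists
    rw [← hm, hi m]
  refine ⟨⟨y, ?_⟩, hy0, ?_⟩
  · have hc : (⋃ m, {i | (x m).1 i ≠ 0}).Countable := Set.countable_iUnion (fun m => (x m).2)
    refine hc.mono ?_
    intro i hi
    by_contra h
    simp only [mem_iUnion, mem_ofPred_eq, not_exists, not_not] at h
    exact hi (hy0 i h)
  · intro F K N
    have h2 : ∀ᶠ m in (𝒰 : Filter ℕ), ∀ i ∈ F, ∀ k ∈ Finset.range K, (x m).1 i k = y i k := by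
      rw [Filter.eventually_all_finset]
      intro i _
      rw [Filter.eventually_all_finset]
      intro k _
      exact hy i k
    have h3 : ∀ᶠ m in (𝒰 : Filter ℕ), N ≤ m := by
      have h4 : ∀ᶠ m in Filter.cofinite, N ≤ m := by
        rw [Nat.cofinite_eq_atTop]; exact Filter.eventually_ge_atTop N
      exact Filter.hyperfilter_le_cofinite h4
    obtain ⟨m, hm1, hm2⟩ := (h2.and h3).exists
    exact ⟨m, hm2, fun i hi k hk => hm1 i hi k (Finset.mem_range.mpr hk)⟩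

lemma countable_supports (x : ℕ → Sig ι) (F : ℕ → Finset ι) :
    ((⋃ m, {i | (x m).1 i ≠ 0}) ∪ ⋃ m, (F m : Set ι)).Countable :=
  (Set.countable_iUnion (fun m => (x m).2)).union
    (Set.countable_iUnion (fun m => (F m).countable_toSet))

/-- Inversion is not continuous. -/
theorem not_continuous_neg (hι : Bdd ι) : ¬ Continuous (fun x : Sig ι => -x) := by
  intro h
  have h1 : (fun x : Sig ι => -x) ⁻¹' (B 0 ∅ 0) ∈ 𝓝 (0 : Sig ι) := by
    apply h.continuousAt.preimage_mem_nhds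
    rw [neg_zero]
    exact mem_nhds_iff'.mpr ⟨∅, 0, Subset.rfl⟩
  obtain ⟨F, K, h2⟩ := mem_nhds_iff'.mp h1
  obtain ⟨δ, hδ⟩ := hι (F : Set ι) F.countable_toSet
  have h3 : sg δ 1 ∈ B (0 : Sig ι) F K := by
    refine ⟨?_, ?_⟩
    · show (sg δ 1).1 - 0 ∈ S
      rw [sub_zero]
      refine Or.inr ⟨δ, ⟨1, one_pos, ?_⟩, fun i hi => sg_ne hi.ne' 1⟩
      rw [sg_self]; simp
    · show (sg δ 1).1 - 0 ∈ V F K
      rw [sub_zero]
      intro i hi k _
      rw [sg_ne (hδ i hi).ne 1]; rfl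
  have h4 := (h2 h3).1
  have h5 : (-(sg δ 1)).1 - (0 : Sig ι).1 = -(sg δ 1).1 := by
    show -(sg δ 1).1 - 0 = _
    rw [sub_zero]
  rw [h5] at h4
  rcases h4 with h4 | ⟨μ, ⟨n, hn, hμ⟩, _⟩
  · have := congrFun h4 δ
    rw [Pi.neg_apply, sg_self, Pi.zero_apply, neg_eq_zero] at this
    apply C_cast_ne one_pos
    simpa using this
  · rw [Pi.neg_apply] at hμ
    by_cases hd : μ = δ
    · subst hd
      rw [sg_self] at hμ
      have h6 : ((n + 1 : ℕ) : C) = 0 := by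
        push_cast
        rw [← hμ]
        simp
      exact C_cast_ne (Nat.succ_pos n) h6
    · rw [sg_ne hd, neg_zero] at hμ
      exact C_cast_ne hn hμ.symm

/-- 2-pseudocompactness. -/
theorem two_pseudocompact (hι : Bdd ι) (U : ℕ → Set (Sig ι)) (hU : ∀ n, IsOpen (U n))
    (hne : ∀ n, (U n).Nonempty) (hanti : ∀ n, U (n+1) ⊆ U n) :
    (⋂ n, closure (-(U n))).Nonempty := by
  classical
  have hanti' : ∀ m n, n ≤ m → U m ⊆ U n := fun m n h => antitone_nat_of_succ_le hanti h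
  choose x hx using hne
  choose F K hFK using fun n => hU n (x n) (hx n)
  obtain ⟨δ, γ, hδi, hδ, hγ⟩ := ladder hι _ (countable_supports x F)
  obtain ⟨y0, hy0, hcl⟩ := cluster (fun m => -(x m))
  have hxz : ∀ m i, (∀ a ∈ ((⋃ m, {i | (x m).1 i ≠ 0}) ∪ ⋃ m, (F m : Set ι)), a ≠ i) →
      (x m).1 i = 0 := by
    intro m i h
    by_contra hne
    exact h i (Or.inl (mem_iUnion.mpr ⟨m, hne⟩)) rfl
  have hδA : ∀ j, ∀ a ∈ ((⋃ m, {i | (x m).1 i ≠ 0}) ∪ ⋃ m, (F m : Set ι)), a ≠ δ j :=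
    fun j a ha => (hδ a ha j).ne
  have hγA : ∀ a ∈ ((⋃ m, {i | (x m).1 i ≠ 0}) ∪ ⋃ m, (F m : Set ι)), a ≠ γ :=
    fun a ha => ((hδ a ha 0).trans (hγ 0)).ne
  refine ⟨y0 - sg γ 1, mem_iInter.mpr (fun n => ?_)⟩
  rw [mem_closure_iff_nhds]
  intro W hW
  obtain ⟨F', K', hW⟩ := mem_nhds_iff'.mp hW
  obtain ⟨j, hj⟩ := exists_notMem δ hδi F'
  obtain ⟨m, hnm, hm⟩ := hcl F' K' n
  have big : ∀ i, δ j < i → ∀ a ∈ ((⋃ m, {i | (x m).1 i ≠ 0}) ∪ ⋃ m, (F m : Set ι)), a ≠ i :=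
    fun i hi a ha => ((hδ a ha j).trans hi).ne
  have hy0z : ∀ i, (∀ a ∈ ((⋃ m, {i | (x m).1 i ≠ 0}) ∪ ⋃ m, (F m : Set ι)), a ≠ i) →
      y0.1 i = 0 := fun i h => hy0 i (fun m => by
        show -(x m).1 i = 0
        rw [hxz m i h, neg_zero])
  refine ⟨-(x m) + sg (δ j) 1 - sg γ 1, hW ?_, ?_⟩
  · have h1 : (-(x m) + sg (δ j) 1 - sg γ 1).1 - (y0 - sg γ 1).1 =
        (-(x m).1 - y0.1) + (sg (δ j) 1).1 := by
      show (-(x m).1 + (sg (δ j) 1).1 - (sg γ 1).1) - (y0.1 - (sg γ 1).1) = _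
      abel
    refine ⟨?_, ?_⟩
    · rw [h1]
      refine Or.inr ⟨δ j, ⟨1, one_pos, ?_⟩, fun i hi => ?_⟩
      · rw [Pi.add_apply, Pi.sub_apply, Pi.neg_apply, hxz m _ (hδA j), hy0z _ (hδA j), sg_self]
        simp
      · rw [Pi.add_apply, Pi.sub_apply, Pi.neg_apply, hxz m _ (big i hi), hy0z _ (big i hi),
          sg_ne hi.ne']
        simp
    · rw [h1]
      intro i hi k hk
      have hne : i ≠ δ j := fun h => hj (h ▸ hi)
      have h2 := hm i hi k hk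
      rw [Pi.add_apply, Pi.add_apply, sg_ne hne, Pi.sub_apply, Pi.sub_apply]
      rw [← h2]
      show (-(x m).1) i k - (-(x m).1) i k + 0 = 0
      simp
  · rw [Set.mem_neg]
    apply hanti' m n hnm
    apply hFK m
    have h1 : (-(-(x m) + sg (δ j) 1 - sg γ 1)).1 - (x m).1 = (sg γ 1).1 - (sg (δ j) 1).1 := by
      show -(-(x m).1 + (sg (δ j) 1).1 - (sg γ 1).1) - (x m).1 = _
      abel
    refine ⟨?_, ?_⟩
    · rw [h1]
      refine Or.inr ⟨γ, ⟨1, one_pos, ?_⟩, fun i hi => ?_⟩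
      · rw [Pi.sub_apply, sg_self, sg_ne (hγ j).ne']
        simp
      · rw [Pi.sub_apply, sg_ne hi.ne', sg_ne ((hγ j).trans hi).ne', sub_zero]
    · rw [h1]
      intro i hi k _
      have hiA : i ∈ ((⋃ m, {i | (x m).1 i ≠ 0}) ∪ ⋃ m, (F m : Set ι)) :=
        Or.inr (mem_iUnion.mpr ⟨m, hi⟩)
      rw [Pi.sub_apply, sg_ne (hγA i hiA), sg_ne (hδA j i hiA), sub_zero]
      rfl

/-- Pseudocompactness: locally finite families of nonempty open sets are finite. -/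
theorem pseudocompact (hι : Bdd ι) {κ : Type} (U : κ → Set (Sig ι)) (hU : ∀ n, IsOpen (U n))
    (hne : ∀ n, (U n).Nonempty) (hlf : LocallyFinite U) : Finite κ := by
  classical
  by_contra hfin
  rw [not_finite_iff_infinite] at hfin
  let e := Infinite.natEmbedding κ
  choose x hx using fun m : ℕ => hne (e m)
  choose F K hFK using fun m : ℕ => hU (e m) (x m) (hx m)
  obtain ⟨δ, γ, hδi, hδ, hγ⟩ := ladder hι _ (countable_supports x F)
  obtain ⟨y0, hy0, hcl⟩ := cluster x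
  obtain ⟨W, hW, hWf⟩ := hlf y0
  obtain ⟨F', K', hW⟩ := mem_nhds_iff'.mp hW
  obtain ⟨j, hj⟩ := exists_notMem δ hδi F'
  have hxz : ∀ m i, (∀ a ∈ ((⋃ m, {i | (x m).1 i ≠ 0}) ∪ ⋃ m, (F m : Set ι)), a ≠ i) →
      (x m).1 i = 0 := by
    intro m i h
    by_contra hne
    exact h i (Or.inl (mem_iUnion.mpr ⟨m, hne⟩)) rfl
  have hδA : ∀ j, ∀ a ∈ ((⋃ m, {i | (x m).1 i ≠ 0}) ∪ ⋃ m, (F m : Set ι)), a ≠ δ j :=
    fun j a ha => (hδ a ha j).ne
  have big : ∀ i, δ j < i → ∀ a ∈ ((⋃ m, {i | (x m).1 i ≠ 0}) ∪ ⋃ m, (F m : Set ι)), a ≠ i :=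
    fun i hi a ha => ((hδ a ha j).trans hi).ne
  have hy0z : ∀ i, (∀ a ∈ ((⋃ m, {i | (x m).1 i ≠ 0}) ∪ ⋃ m, (F m : Set ι)), a ≠ i) →
      y0.1 i = 0 := fun i h => hy0 i (fun m => hxz m i h)
  have h1 : ∀ N, ∃ m, N ≤ m ∧ (U (e m) ∩ W).Nonempty := by
    intro N
    obtain ⟨m, hNm, hm⟩ := hcl F' K' N
    refine ⟨m, hNm, x m + sg (δ j) 1, hFK m ?_, hW ?_⟩
    · have h2 : (x m + sg (δ j) 1).1 - (x m).1 = (sg (δ j) 1).1 := by
        show ((x m).1 + (sg (δ j) 1).1) - (x m).1 = _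
        abel
      refine ⟨?_, ?_⟩
      · rw [h2]
        refine Or.inr ⟨δ j, ⟨1, one_pos, ?_⟩, fun i hi => sg_ne hi.ne' 1⟩
        rw [sg_self]; simp
      · rw [h2]
        intro i hi k _
        have hiA : i ∈ ((⋃ m, {i | (x m).1 i ≠ 0}) ∪ ⋃ m, (F m : Set ι)) :=
          Or.inr (mem_iUnion.mpr ⟨m, hi⟩)
        rw [sg_ne (hδA j i hiA)]
        rfl
    · have h2 : (x m + sg (δ j) 1).1 - y0.1 = ((x m).1 - y0.1) + (sg (δ j) 1).1 := by
        show ((x m).1 + (sg (δ j) 1).1) - y0.1 = _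
        abel
      refine ⟨?_, ?_⟩
      · rw [h2]
        refine Or.inr ⟨δ j, ⟨1, one_pos, ?_⟩, fun i hi => ?_⟩
        · rw [Pi.add_apply, Pi.sub_apply, hxz m _ (hδA j), hy0z _ (hδA j), sg_self]
          simp
        · rw [Pi.add_apply, Pi.sub_apply, hxz m _ (big i hi), hy0z _ (big i hi), sg_ne hi.ne']
          simp
      · rw [h2]
        intro i hi k hk
        have hne : i ≠ δ j := fun h => hj (h ▸ hi)
        rw [Pi.add_apply, Pi.add_apply, sg_ne hne, Pi.sub_apply, Pi.sub_apply, hm i hi k hk]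
        simp
  have h2 : (e ⁻¹' {i | (U i ∩ W).Nonempty}).Finite := hWf.preimage e.injective.injOn
  obtain ⟨N, hN⟩ := h2.bddAbove
  obtain ⟨m, hm, hmW⟩ := h1 (N+1)
  have := hN (show m ∈ e ⁻¹' {i | (U i ∩ W).Nonempty} from hmW)
  omega

/-- The Baire property. -/
theorem baire (hι : Bdd ι) : BaireSpace (Sig ι) := by
  classical
  constructor
  intro D hDo hDd
  rw [dense_iff_inter_open]
  intro O hO hOne
  -- the refinement step
  have step : ∀ (n : ℕ) (p : Sig ι × Finset ι × ℕ), ∃ q : Sig ι × Finset ι × ℕ,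
      p.2.1 ⊆ q.2.1 ∧ p.2.2 ≤ q.2.2 ∧ q.1 ∈ B p.1 p.2.1 p.2.2 ∧ B q.1 q.2.1 q.2.2 ⊆ D n := by
    rintro n ⟨x, F, K⟩
    obtain ⟨x', hx', hxD⟩ := (dense_iff_inter_open.mp (hDd n)) (B x F K) (isOpen_B x F K)
      ⟨x, self_mem_B x F K⟩
    obtain ⟨F1, K1, h1⟩ := hDo n x' hxD
    refine ⟨⟨x', F ∪ F1, max K K1⟩, Finset.subset_union_left, le_max_left _ _, hx', ?_⟩
    intro z hz
    exact h1 ⟨hz.1, V_mono Finset.subset_union_right (le_max_right _ _) hz.2⟩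
  choose nxt hnxt using step
  obtain ⟨o, ho⟩ := hOne
  obtain ⟨F0, K0, h0⟩ := hO o ho
  let p : ℕ → Sig ι × Finset ι × ℕ := fun n => Nat.rec (o, F0, K0) (fun n q => nxt n q) n
  have hp : ∀ n, p (n+1) = nxt n (p n) := fun n => rfl
  have hF : ∀ n, (p n).2.1 ⊆ (p (n+1)).2.1 := fun n => by rw [hp]; exact (hnxt n (p n)).1
  have hK : ∀ n, (p n).2.2 ≤ (p (n+1)).2.2 := fun n => by rw [hp]; exact (hnxt n (p n)).2.1
  have hB : ∀ n, (p (n+1)).1 ∈ B (p n).1 (p n).2.1 (p n).2.2 := fun n => by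
    rw [hp]; exact (hnxt n (p n)).2.2.1
  have hD : ∀ n, B (p (n+1)).1 (p (n+1)).2.1 (p (n+1)).2.2 ⊆ D n := fun n => by
    rw [hp]; exact (hnxt n (p n)).2.2.2
  have hBsub : ∀ n, B (p (n+1)).1 (p (n+1)).2.1 (p (n+1)).2.2 ⊆
      B (p n).1 (p n).2.1 (p n).2.2 := by
    intro n z hz
    exact B_trans (hB n) ⟨hz.1, V_mono (hF n) (hK n) hz.2⟩
  have hBanti : ∀ m n, n ≤ m → B (p m).1 (p m).2.1 (p m).2.2 ⊆ B (p n).1 (p n).2.1 (p n).2.2 :=
    fun m n h => antitone_nat_of_succ_le (f := fun n => B (p n).1 (p n).2.1 (p n).2.2) hBsub h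
  obtain ⟨δ, γ, hδi, hδ, hγ⟩ := ladder hι _
    (countable_supports (fun n => (p n).1) (fun n => (p n).2.1))
  obtain ⟨y0, hy0, hcl⟩ := cluster (fun n => (p n).1)
  have hγA : ∀ a ∈ ((⋃ m, {i | (p m).1.1 i ≠ 0}) ∪ ⋃ m, ((p m).2.1 : Set ι)), a < γ :=
    fun a ha => (hδ a ha 0).trans (hγ 0)
  have hxz : ∀ m i, γ ≤ i → (p m).1.1 i = 0 := by
    intro m i h
    by_contra hne
    exact absurd (hγA i (Or.inl (mem_iUnion.mpr ⟨m, hne⟩))) (not_lt.mpr h)
  have hyz : ∀ i, γ ≤ i → y0.1 i = 0 := fun i h => hy0 i (fun m => hxz m i h)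
  have hg : ∀ n, y0 + sg γ 1 ∈ B (p n).1 (p n).2.1 (p n).2.2 := by
    intro n
    have h1 : (y0 + sg γ 1).1 - (p n).1.1 = (y0.1 - (p n).1.1) + (sg γ 1).1 := by
      show (y0.1 + (sg γ 1).1) - (p n).1.1 = _
      abel
    refine ⟨?_, ?_⟩
    · rw [h1]
      refine Or.inr ⟨γ, ⟨1, one_pos, ?_⟩, fun i hi => ?_⟩
      · rw [Pi.add_apply, Pi.sub_apply, hxz n γ le_rfl, hyz γ le_rfl, sg_self]
        simp
      · rw [Pi.add_apply, Pi.sub_apply, hxz n i hi.le, hyz i hi.le, sg_ne hi.ne']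
        simp
    · rw [h1]
      intro i hi k hk
      have hne : i ≠ γ := (hγA i (Or.inr (mem_iUnion.mpr ⟨n, hi⟩))).ne
      obtain ⟨m, hnm, hm⟩ := hcl (p n).2.1 (p n).2.2 n
      have h2 := (hBanti m n hnm (self_mem_B _ _ _)).2 i hi k hk
      rw [Pi.add_apply, Pi.add_apply, sg_ne hne, Pi.sub_apply, Pi.sub_apply, ← hm i hi k hk]
      rw [Pi.sub_apply, Pi.sub_apply] at h2
      rw [h2]
      simp
  exact ⟨y0 + sg γ 1, h0 (hg 0), mem_iInter.mpr (fun n => hD n (hg (n+1)))⟩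

/-- `omega_1` as a type. -/
theorem exists_index : ∃ (ι : Type) (_ : LinearOrder ι), Bdd ι := by
  refine ⟨(Cardinal.aleph 1).ord.ToType, inferInstance, ?_⟩
  intro s hs
  by_contra hcon
  push Not at hcon
  have h1 : (Set.univ : Set (Cardinal.aleph 1).ord.ToType) ⊆ ⋃ a ∈ s, Set.Iic a := by
    intro b _
    obtain ⟨a, ha, hab⟩ := hcon b
    exact mem_iUnion₂.mpr ⟨a, ha, hab⟩
  have h2 : (⋃ a ∈ s, Set.Iic a).Countable := by
    apply Set.Countable.biUnion hs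
    intro a _
    rw [← Set.Iio_insert]
    apply Set.Countable.insert
    have h3 : Cardinal.mk (Set.Iio a) < Cardinal.aleph 1 := by
      simpa using Cardinal.mk_Iio_lt a
    rw [Cardinal.lt_aleph_one_iff, Cardinal.mk_le_aleph0_iff] at h3
    exact Set.countable_coe_iff.mp h3
  have h3 : (Set.univ : Set (Cardinal.aleph 1).ord.ToType).Countable := h2.mono h1
  have h4 : Cardinal.mk (Cardinal.aleph 1).ord.ToType ≤ Cardinal.aleph0 := by
    rw [← Cardinal.mk_univ]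
    exact Cardinal.le_aleph0_iff_set_countable.mpr h3
  rw [Cardinal.mk_ord_toType] at h4
  exact absurd h4 (not_le.mpr Cardinal.aleph0_lt_aleph_one)

end Pool.Agent.TH163.ParaTop
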