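import Mathlib
import Pool.Agent.Helper884.Golod

/-!
Golod's finitely generated infinite-dimensional nil algebras over an arbitrary field, as a homogeneous ideal of the
free algebra on two letters.
-/

set_option autoImplicit false

namespace Pool.Agent.TH163.GolodAny

open Finset Module MonoidAlgebra Pool.Agent.Helper884.Golod

lemma geom_bound (m : ℕ) : ∑ t ∈ range m, ((5:ℝ)/6)^t ≤ 6 := by
  have h : ∑ t ∈ range m, ((5:ℝ)/6)^t = 6 * (1 - (5/6)^m) := by
    induction m with
    | zero => simp
    | succ m ih => rw [sum_range_succ, ih, pow_succ]; ring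
  rw [h]
  have : (0:ℝ) ≤ (5/6)^m := by positivity
  linarith

/-- Numerical part of the Golod-Shafarevich inequality, with relations of growing number. -/
lemma growth' (a r : ℕ → ℝ) (h0 : 0 < a 0) (hr : ∀ j, 0 ≤ r j)
    (hrb : ∀ j, r j ≤ (1/15) * (5/4)^j)
    (hrec : ∀ n, 2 * a n ≤ a (n+1) + ∑ i ∈ range (n+1), a i * r (n+1-i)) :
    ∀ n, 0 < a n ∧ (3/2) * a n ≤ a (n+1) := by
  intro n
  induction n using Nat.strong_induction_on with
  | _ n ih =>
    have hpos : ∀ m, m ≤ n → 0 < a m := by
      intro m hm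
      rcases Nat.lt_or_ge m n with h | h
      · exact (ih m h).1
      · obtain rfl : m = n := le_antisymm hm h
        rcases m with _ | m
        · exact h0
        · have := ih m (Nat.lt_succ_self m)
          linarith [this.1, this.2]
    have hgr : ∀ m, m < n → (3/2) * a m ≤ a (m+1) := fun m hm => (ih m hm).2
    have hdec : ∀ t, t ≤ n → a (n - t) ≤ (2/3)^t * a n := by
      intro t
      induction t with
      | zero => intro _; simp
      | succ t iht =>
        intro ht
        have h1 := iht (by omega)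
        have h2 := hgr (n - (t+1)) (by omega)
        have h3 : n - (t+1) + 1 = n - t := by omega
        rw [h3] at h2
        rw [pow_succ]
        nlinarith
    refine ⟨hpos n le_rfl, ?_⟩
    have hpn := hpos n le_rfl
    have key : ∑ i ∈ range (n+1), a i * r (n+1-i) ≤ a n / 2 := by
      rw [← Finset.sum_range_reflect]
      calc ∑ j ∈ range (n+1), a (n + 1 - 1 - j) * r (n + 1 - (n + 1 - 1 - j))
          ≤ ∑ j ∈ range (n+1), (1/12 * a n) * (5/6)^j := by
            apply sum_le_sum
            intro j hj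
            rw [mem_range] at hj
            have e1 : n + 1 - 1 - j = n - j := by omega
            have e2 : n + 1 - (n + 1 - 1 - j) = j + 1 := by omega
            rw [e2, e1]
            have h1 := hdec j (by omega)
            have h2 := hrb (j+1)
            have h3 : 0 < a (n - j) := hpos _ (by omega)
            calc a (n-j) * r (j+1) ≤ ((2/3)^j * a n) * ((1/15) * (5/4)^(j+1)) :=
                  mul_le_mul h1 h2 (hr _) (by positivity)
              _ = (1/12 * a n) * ((2/3)^j * (5/4)^j) := by rw [pow_succ]; ring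
              _ = (1/12 * a n) * (5/6)^j := by rw [← mul_pow]; norm_num
        _ = (1/12 * a n) * ∑ j ∈ range (n+1), (5/6)^j := by rw [mul_sum]
        _ ≤ (1/12 * a n) * 6 := by
            apply mul_le_mul_of_nonneg_left (geom_bound _) (by positivity)
        _ = a n / 2 := by ring
    have := hrec n
    linarith

section Abstract

variable {K T : Type*} [Field K] [Ring T] [Algebra K T] {D R : ℕ → Submodule K T}

/-- Golod-Shafarevich with a growing number of relations. -/
theorem Jd_lt' (hDf : ∀ n, finrank K (D n) = 2 ^ n) (hD : ∀ m n, D m * D n = D (m+n))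
    (hD0 : D 0 = 1) (hR : ∀ n, R n ≤ D n)
    (hRr : ∀ n, (finrank K (R n) : ℝ) ≤ (1/15) * (5/4)^n) (n : ℕ) :
    Jd D R n < D n := by
  classical
  have hDF : ∀ n, Module.Finite K (D n) := fun n => by
    apply Module.finite_of_finrank_pos
    rw [hDf]; positivity
  have hJf := finite_Jd hDF hD hR
  have hJle : ∀ n, finrank K (Jd D R n) ≤ 2 ^ n := fun n => by
    have := hDF n
    rw [← hDf n]
    exact Submodule.finrank_mono (Jd_le hD hR n)
  set a : ℕ → ℝ := fun n => (2:ℝ) ^ n - finrank K (Jd D R n) with ha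
  have key := growth' a (fun n => (finrank K (R n) : ℝ)) (by
    have h0 : Jd D R 0 = ⊥ := rfl
    have h1 : finrank K (Jd D R 0) = 0 := by rw [h0]; exact finrank_bot K T
    simp only [ha, h1]; norm_num) (fun _ => by positivity) hRr (by
    intro n
    have h1 := finrank_Jd_succ_le hDF hD hD0 hR n
    have h6 : ((finrank K (Jd D R (n+1)) : ℕ) : ℝ) ≤ ((finrank K (Jd D R n) * finrank K (D 1) +
      ∑ i ∈ Finset.range (n+1),
        (finrank K (D i) - finrank K (Jd D R i)) * finrank K (R (n+1-i)) : ℕ) : ℝ) := by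
      exact_mod_cast h1
    rw [hDf 1] at h6
    push_cast at h6
    have h7 : ∑ i ∈ Finset.range (n+1),
        (((finrank K (D i) - finrank K (Jd D R i) : ℕ)) : ℝ) * finrank K (R (n+1-i)) =
      ∑ i ∈ Finset.range (n+1), ((2:ℝ)^i - finrank K (Jd D R i)) * (finrank K (R (n+1-i)) : ℝ) := by
      apply Finset.sum_congr rfl
      intro i _
      rw [hDf i, Nat.cast_sub (hJle i)]
      push_cast
      ring
    rw [h7] at h6
    simp only [ha]
    rw [pow_succ]
    linarith)
  have hlt : finrank K (Jd D R n) < 2 ^ n := by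
    have h1 := (key n).1
    simp only [ha] at h1
    have : ((finrank K (Jd D R n) : ℕ) : ℝ) < ((2 ^ n : ℕ) : ℝ) := by push_cast; linarith
    exact_mod_cast this
  refine lt_of_le_of_ne (Jd_le hD hR n) ?_
  intro h
  rw [h, hDf n] at hlt
  exact lt_irrefl _ hlt

end Abstract

section Expand

variable {K A : Type*} [Field K] [Ring A] [Algebra K A]

lemma pow_sum_expand {k : ℕ} (t : Fin k → K) (u : Fin k → A) (N : ℕ) :
    (∑ i, t i • u i) ^ N =
      ∑ s : Fin N → Fin k, (∏ j, t (s j)) • (List.ofFn (fun j => u (s j))).prod := by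
  induction N with
  | zero => simp
  | succ N ih =>
    rw [pow_succ', ih, ← (Fin.consEquiv (fun _ => Fin k)).sum_comp, Fintype.sum_prod_type,
      Finset.sum_mul]
    apply Finset.sum_congr rfl
    intro i _
    rw [Finset.mul_sum]
    apply Finset.sum_congr rfl
    intro s _
    simp only [Fin.consEquiv, Equiv.coe_fn_mk, Fin.prod_univ_succ, List.ofFn_succ, Fin.cons_zero,
      Fin.cons_succ, List.prod_cons, smul_mul_smul_comm]

/-- the content of a sequence -/
def cont {k N : ℕ} (s : Fin N → Fin k) : Fin k → Fin (N+1) := fun a =>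
  ⟨(univ.filter (fun j => s j = a)).card, by
    have := Finset.card_filter_le (univ : Finset (Fin N)) (fun j => s j = a)
    rw [Finset.card_univ, Fintype.card_fin] at this
    omega⟩

/-- the coefficient of a monomial in the generic power -/
noncomputable def ee {k : ℕ} (u : Fin k → A) (N : ℕ) (κ : Fin k → Fin (N+1)) : A :=
  ∑ s : Fin N → Fin k with cont s = κ, (List.ofFn (fun j => u (s j))).prod

lemma pow_sum_eq {k : ℕ} (t : Fin k → K) (u : Fin k → A) (N : ℕ) :
    (∑ i, t i • u i) ^ N = ∑ κ : Fin k → Fin (N+1), (∏ a, t a ^ (κ a : ℕ)) • ee u N κ := by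
  rw [pow_sum_expand, ← Finset.sum_fiberwise univ (cont (k := k) (N := N))]
  apply Finset.sum_congr rfl
  intro κ _
  rw [ee, Finset.smul_sum]
  apply Finset.sum_congr rfl
  intro s hs
  rw [Finset.mem_filter] at hs
  congr 1
  rw [← Finset.prod_fiberwise univ s]
  apply Finset.prod_congr rfl
  intro a _
  rw [← hs.2]
  rw [Finset.prod_congr rfl (g := fun _ => t a) (fun j hj => by rw [(Finset.mem_filter.mp hj).2]),
    Finset.prod_const]
  rfl

end Expand

section Core

variable {K : Type} [Field K]

/-- A strict upper bound for the lengths of words occurring in a finite family. -/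
noncomputable def mdd {ι : Type} [Fintype ι] (M : ι → T K) : ℕ :=
  (Finset.univ.sup fun a => (M a).coeff.support.sup FreeMonoid.length) + 1

lemma lt_mdd {ι : Type} [Fintype ι] (M : ι → T K) (a : ι) (w : FreeMonoid (Fin 2))
    (hw : w ∈ (M a).coeff.support) : w.length < mdd M := by
  unfold mdd
  have h1 : w.length ≤ (M a).coeff.support.sup FreeMonoid.length :=
    Finset.le_sup (f := FreeMonoid.length) hw
  have h2 : (M a).coeff.support.sup FreeMonoid.length ≤
    Finset.univ.sup fun b => (M b).coeff.support.sup FreeMonoid.length :=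
    Finset.le_sup (f := fun b => (M b).coeff.support.sup FreeMonoid.length) (Finset.mem_univ a)
  omega

lemma exists_g (k : ℕ) : ∃ n0 : ℕ, ∀ n, n0 ≤ n → ((n:ℝ)+1)^k ≤ (1/15) * (5/4)^n := by
  have h1 : Filter.Tendsto (fun n : ℕ => (n:ℝ)^k / (5/4:ℝ)^n) Filter.atTop (nhds 0) :=
    tendsto_pow_const_div_const_pow_of_one_lt k (by norm_num)
  have h2 := h1.comp (Filter.tendsto_add_atTop_nat 1)
  have h3 := h2.eventually (gt_mem_nhds (show (0:ℝ) < 4/75 by norm_num))
  obtain ⟨n0, hn0⟩ := Filter.eventually_atTop.mp h3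
  refine ⟨n0, fun n hn => ?_⟩
  have h4 := hn0 n hn
  simp only [Function.comp] at h4
  rw [div_lt_iff₀ (by positivity)] at h4
  push_cast at h4
  rw [pow_succ] at h4
  linarith

lemma ofFn_prod_mem_Ge (N : ℕ) (g : Fin N → T K) (hg : ∀ j, g j ∈ Ge K 1) :
    (List.ofFn g).prod ∈ Ge K N := by
  induction N with
  | zero =>
    rw [Ge, mem_supported]
    intro w _
    exact Nat.zero_le _
  | succ N ih =>
    rw [List.ofFn_succ, List.prod_cons]
    have h := Ge_mul (hg 0) (ih (fun j => g j.succ) (fun j => hg _))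
    exact Ge_anti (by omega) h

lemma mem_span_words (u : ℕ → FreeMonoid (Fin 2)) (hu : ∀ w, w ≠ 1 → ∃ i, u i = w) (f : T K)
    (hf : f ∈ Ge K 1) : ∃ k, ∃ t : Fin k → K, f = ∑ i, t i • (single (u i) (1:K) : T K) := by
  classical
  have h0 : ∀ w ∈ f.coeff.support, w ≠ 1 := by
    intro w hw h1
    rw [Ge, mem_supported'] at hf
    rw [Finsupp.mem_support_iff] at hw
    apply hw
    apply hf
    rw [h1]; simp
  have h1 : ∀ w : FreeMonoid (Fin 2), ∃ i, w ≠ 1 → u i = w := fun w => by
    by_cases h : w = 1
    · exact ⟨0, fun h' => absurd h h'⟩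
    · obtain ⟨i, hi⟩ := hu w h
      exact ⟨i, fun _ => hi⟩
  choose ix hix using h1
  let k := f.coeff.support.sup ix + 1
  have h2 : f ∈ Submodule.span K (Set.range (fun i : Fin k => (single (u i) (1:K) : T K))) := by
    rw [← sum_coeff_single f, Finsupp.sum]
    apply Submodule.sum_mem
    intro w hw
    have h3 : (single w (f.coeff w) : T K) = (f.coeff w) • single w (1:K) := by simp
    rw [h3]
    apply Submodule.smul_mem
    apply Submodule.subset_span
    refine ⟨⟨ix w, Nat.lt_succ_of_le (Finset.le_sup (f := ix) hw)⟩, ?_⟩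
    show (single (u (ix w)) (1:K) : T K) = _
    rw [hix w (h0 w hw)]
  obtain ⟨t, ht⟩ := (Submodule.mem_span_range_iff_exists_fun K).mp h2
  exact ⟨k, t, ht.symm⟩

/-- **Golod's algebras over an arbitrary field.** -/
theorem golod_any (K : Type) [Field K] : ∃ I : Ideal (T K), I.IsTwoSided ∧
    (∀ f ∈ Ge K 1, ∃ N : ℕ, f ^ N ∈ I) ∧ (∀ f ∈ I, ∀ n, comp n f ∈ I) ∧
    (∀ n : ℕ, ∃ w : FreeMonoid (Fin 2), w.length = n ∧ (single w (1:K) : T K) ∉ I) := by
  classical
  -- enumeration of the nontrivial words
  let X := {w : FreeMonoid (Fin 2) // w ≠ 1}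
  have : Nonempty X := ⟨⟨FreeMonoid.of 0, FreeMonoid.of_ne_one _⟩⟩
  obtain ⟨u', hu'⟩ := exists_surjective_nat X
  let u : ℕ → FreeMonoid (Fin 2) := fun n => (u' n).1
  have hu1 : ∀ n, u n ≠ 1 := fun n => (u' n).2
  have hu2 : ∀ w, w ≠ 1 → ∃ i, u i = w := by
    intro w hw
    obtain ⟨i, hi⟩ := hu' ⟨w, hw⟩
    exact ⟨i, congrArg Subtype.val hi⟩
  -- the relations
  let E : (k N : ℕ) → (Fin k → Fin (N+1)) → T K := fun k N κ =>
    ee (fun i : Fin k => (single (u i) (1:K) : T K)) N κ
  have hE : ∀ k N κ, E k N κ ∈ Ge K N := by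
    intro k N κ
    apply Submodule.sum_mem
    intro s _
    apply ofFn_prod_mem_Ge
    intro j
    rw [Ge, mem_supported']
    intro w hw
    have : w = 1 := by
      rw [← FreeMonoid.length_eq_zero]
      simp only [Set.mem_ofPred_eq, not_le] at hw
      omega
    rw [this, coeff_single, Finsupp.single_apply, if_neg (hu1 _)]
  choose g hg using exists_g
  obtain ⟨es, es0, es1⟩ : ∃ es : ℕ → ℕ, es 0 = g 0 + 1 ∧
      ∀ k, es (k+1) = max (max (es k + 1) (mdd (E k (es k)))) (g (k+1)) :=
    ⟨fun k => Nat.rec (g 0 + 1) (fun k e => max (max (e+1) (mdd (E k e))) (g (k+1))) k, rfl,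
      fun _ => rfl⟩
  have es_mono : StrictMono es := strictMono_nat_of_lt_succ (fun k => by
    rw [es1]
    exact lt_of_lt_of_le (Nat.lt_succ_self _) ((le_max_left _ _).trans (le_max_left _ _)))
  have es_g : ∀ k, g k ≤ es k := by
    intro k
    rcases k with _ | k
    · rw [es0]; omega
    · rw [es1]; exact le_max_right _ _
  have hes : ∀ k, ((es k : ℝ)+1)^k ≤ (1/15) * (5/4)^(es k) := fun k => hg k _ (es_g k)
  let idx : ℕ → ℕ := fun j => Nat.findGreatest (fun k => es k ≤ j) j
  have hidx : ∀ k j, es k ≤ j → j < es (k+1) → idx j = k := by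
    intro k j h1 h2
    have hkj : k ≤ j := (es_mono.le_apply).trans h1
    apply le_antisymm
    · by_contra h3
      push Not at h3
      have h4 := Nat.findGreatest_spec (P := fun k => es k ≤ j) (n := j) (m := k) hkj h1
      have h5 : es (k+1) ≤ es (Nat.findGreatest (fun k => es k ≤ j) j) := es_mono.monotone h3
      omega
    · exact Nat.le_findGreatest (P := fun k => es k ≤ j) hkj h1
  have hidx2 : ∀ j, es 0 ≤ j → es (idx j) ≤ j := fun j hj =>
    Nat.findGreatest_spec (P := fun k => es k ≤ j) (n := j) (m := 0) (Nat.zero_le _) hj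
  let R : ℕ → Submodule K (T K) := fun j => if j < es 0 then ⊥ else
    Submodule.span K (Set.range (fun κ => comp j (E (idx j) (es (idx j)) κ)))
  have hR : ∀ n, R n ≤ D K n := by
    intro n
    simp only [R]
    split_ifs with h
    · exact bot_le
    · rw [Submodule.span_le]
      rintro _ ⟨κ, rfl⟩
      exact comp_mem n _
  have hRr : ∀ n, (finrank K (R n) : ℝ) ≤ (1/15) * (5/4)^n := by
    intro n
    by_cases h : n < es 0
    · have : R n = ⊥ := if_pos h
      rw [this]
      have h0 : finrank K (⊥ : Submodule K (T K)) = 0 := finrank_bot K (T K)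
      rw [h0, Nat.cast_zero]
      positivity
    · have hRn : R n = Submodule.span K (Set.range (fun κ =>
          comp n (E (idx n) (es (idx n)) κ))) := if_neg h
      rw [hRn]
      have h1 := finrank_range_le_card (R := K) (fun κ => comp n (E (idx n) (es (idx n)) κ))
      rw [Fintype.card_fun, Fintype.card_fin, Fintype.card_fin] at h1
      have h2 : ((finrank K (Submodule.span K (Set.range (fun κ =>
          comp n (E (idx n) (es (idx n)) κ)))) : ℕ) : ℝ) ≤ (((es (idx n) + 1)^(idx n) : ℕ) : ℝ) := by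
        exact_mod_cast h1
      push_cast at h2
      refine h2.trans ((hes (idx n)).trans ?_)
      apply mul_le_mul_of_nonneg_left _ (by norm_num)
      exact pow_le_pow_right₀ (by norm_num) (hidx2 n (by omega))
  have hlt := Jd_lt' (K := K) (D := D K) (R := R) finrank_D D_mul D_zero hR hRr
  refine ⟨It R, inferInstance, ?_, ?_, ?_⟩
  · intro f hf
    obtain ⟨k, t, ht⟩ := mem_span_words u hu2 f hf
    refine ⟨es k, ?_⟩
    rw [mem_It, ht, pow_sum_eq]
    apply Submodule.sum_mem
    intro κ _
    apply Submodule.smul_mem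
    show E k (es k) κ ∈ Jt R
    rw [sum_comp (E k (es k) κ) (es (k+1)) (by
      intro w hw
      have h1 := lt_mdd _ κ w hw
      rw [es1]
      exact lt_of_lt_of_le h1 ((le_max_right _ _).trans (le_max_left _ _)))]
    apply Submodule.sum_mem
    intro j hj
    rw [Finset.mem_range] at hj
    rcases Nat.lt_or_ge j (es k) with h | h
    · rw [comp_eq_zero_of_Ge (hE k (es k) κ) h]; exact Submodule.zero_mem _
    · have h1 := hidx k j h hj
      have h2 : es 0 ≤ j := (es_mono.monotone (Nat.zero_le k)).trans h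
      have h3 : comp j (E k (es k) κ) ∈ R j := by
        have hRj : R j = Submodule.span K (Set.range (fun κ =>
          comp j (E (idx j) (es (idx j)) κ))) := if_neg (by omega)
        rw [hRj, h1]
        exact Submodule.subset_span ⟨κ, rfl⟩
      obtain ⟨j', rfl⟩ : ∃ j', j = j' + 1 := ⟨j - 1, by omega⟩
      exact (le_iSup (Jd (D K) R) (j'+1)) (R_le D_zero j' h3)
  · intro f hf n
    rw [mem_It] at hf ⊢
    exact (le_iSup (Jd (D K) R) n) (comp_mem_Jd R hR f hf n)
  · intro n
    by_contra hcon
    push Not at hcon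
    apply (hlt n).not_ge
    rw [D_eq_span, Submodule.span_le]
    rintro _ ⟨w, hw, rfl⟩
    have h1 := comp_mem_Jd R hR _ ((mem_It R _).mp (hcon w hw)) n
    rwa [comp_of_mem_D (n := n) (by
      rw [D_eq_span]; exact Submodule.subset_span ⟨w, hw, rfl⟩), if_pos rfl] at h1

end Core

end Pool.Agent.TH163.GolodAny
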