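import Mathlib

/-!
Nil algebras of countable dimension over an uncountable field: every finite-dimensional subspace has
bounded nil index.
-/

set_option autoImplicit false

namespace Pool.Agent.TH163.NilBound

open MvPolynomial

/-- Countably many nonzero polynomials in finitely many variables over an uncountable field have a common
nonvanishing point. -/
lemma exists_common_nonzero {F : Type*} [Field F] [Uncountable F] (m : ℕ) :
    ∀ P : ℕ → MvPolynomial (Fin m) F, (∀ n, P n ≠ 0) → ∃ c : Fin m → F, ∀ n, eval c (P n) ≠ 0 := by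
  induction m with
  | zero =>
    intro P hP
    refine ⟨Fin.elim0, fun n h => hP n ?_⟩
    rw [eq_C_of_isEmpty (P n)] at h ⊢
    rw [eval_C] at h
    rw [h, C_0]
  | succ m ih =>
    intro P hP
    have hP' : ∀ n, (finSuccEquiv F m (P n)).leadingCoeff ≠ 0 := fun n => by
      rw [Polynomial.leadingCoeff_ne_zero]
      intro h
      exact hP n ((map_eq_zero_iff _ (finSuccEquiv F m).injective).mp h)
    obtain ⟨c, hc⟩ := ih _ hP'
    have hne : ∀ n, Polynomial.map (eval c) (finSuccEquiv F m (P n)) ≠ 0 := by
      intro n h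
      apply hc n
      have := congrArg (fun p => Polynomial.coeff p (finSuccEquiv F m (P n)).natDegree) h
      simpa using this
    have hcount : (⋃ n, {x | Polynomial.IsRoot (Polynomial.map (eval c) (finSuccEquiv F m (P n))) x}).Countable := by
      apply Set.countable_iUnion
      intro n
      exact (Polynomial.finite_setOfPred_isRoot (hne n)).countable
    have : ∃ x, x ∉ (⋃ n, {x | Polynomial.IsRoot (Polynomial.map (eval c) (finSuccEquiv F m (P n))) x}) := by
      by_contra hcon
      push Not at hcon
      have h2 : (Set.univ : Set F).Countable := hcount.mono (fun x _ => hcon x)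
      exact not_countable (α := F) (Set.countable_univ_iff.mp h2)
    obtain ⟨x, hx⟩ := this
    refine ⟨Fin.cons x c, fun n h => hx ?_⟩
    rw [eval_eq_eval_mv_eval'] at h
    exact Set.mem_iUnion.mpr ⟨n, h⟩

/-- The coordinates of the powers of a generic element are polynomials. -/
lemma exists_poly {F E : Type*} [Field F] [Ring E] [Algebra F E] {m : ℕ} (v : Fin m → E) (n : ℕ) :
    ∀ l : E →ₗ[F] F, ∃ P : MvPolynomial (Fin m) F, ∀ c : Fin m → F,
      eval c P = l ((∑ i, c i • v i) ^ n) := by
  induction n with
  | zero =>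
    intro l
    exact ⟨C (l 1), fun c => by simp⟩
  | succ n ih =>
    intro l
    choose P hP using fun i : Fin m => ih (l ∘ₗ LinearMap.mulLeft F (v i))
    refine ⟨∑ i, X i * P i, fun c => ?_⟩
    rw [map_sum, pow_succ', Finset.sum_mul, map_sum]
    apply Finset.sum_congr rfl
    intro i _
    rw [map_mul, eval_X, hP i, smul_mul_assoc, map_smul]
    rfl

/-- Uniform nil bound on a finitely generated subspace. -/
theorem exists_bound {F E : Type*} [Field F] [Uncountable F] [Ring E] [Algebra F E]
    (V : Submodule F E) (hV : V.FG) (hnil : ∀ v ∈ V, IsNilpotent v) :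
    ∃ N : ℕ, ∀ v ∈ V, v ^ N = 0 := by
  classical
  obtain ⟨m, v, rfl⟩ := Submodule.fg_iff_exists_fin_generating_family.mp hV
  by_contra hcon
  push Not at hcon
  have h1 : ∀ N : ℕ, ∃ P : MvPolynomial (Fin m) F, P ≠ 0 ∧
      ∀ c : Fin m → F, eval c P ≠ 0 → (∑ i, c i • v i) ^ N ≠ 0 := by
    intro N
    obtain ⟨x, hx, hxN⟩ := hcon N
    obtain ⟨c, rfl⟩ := (Submodule.mem_span_range_iff_exists_fun F).mp hx
    obtain ⟨l, hl⟩ : ∃ l : E →ₗ[F] F, l ((∑ i, c i • v i) ^ N) ≠ 0 := by
      by_contra h
      push Not at h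
      exact hxN ((Module.forall_dual_apply_eq_zero_iff F _).mp h)
    obtain ⟨P, hP⟩ := exists_poly v N l
    refine ⟨P, ?_, ?_⟩
    · rintro rfl
      exact hl (by rw [← hP c, map_zero])
    · intro c' hc' h0
      apply hc'
      rw [hP c', h0, map_zero]
  choose P hP0 hP using h1
  obtain ⟨c, hc⟩ := exists_common_nonzero m P hP0
  obtain ⟨N, hN⟩ := hnil (∑ i, c i • v i) (Submodule.sum_mem _ (fun i _ =>
    Submodule.smul_mem _ _ (Submodule.subset_span ⟨i, rfl⟩)))
  exact hP N c (hc N) hN

end Pool.Agent.TH163.NilBound
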