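import Mathlib
import Pool.Agent.TH163.NilBound

/-!
A filtration of a nil algebra of countable dimension by finite-dimensional subspaces with
`V k * V k ≤ V (k+1)`, and the nil bounds.
-/

set_option autoImplicit false

namespace Pool.Agent.TH163.NilFilt

open Unitization

variable {F A : Type} [Field F] [NonUnitalRing A] [Module F A] [IsScalarTower F A A]
  [SMulCommClass F A A]

/-- the filtration -/
noncomputable def V (s : ℕ → A) : ℕ → Submodule F (Unitization F A)
  | 0 => ⊥
  | (k+1) => V s k ⊔ Submodule.span F {(s k : Unitization F A)} ⊔ V s k * V s k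

lemma V_succ (s : ℕ → A) (k : ℕ) : V (F := F) s (k+1) =
    V s k ⊔ Submodule.span F {(s k : Unitization F A)} ⊔ V s k * V s k := rfl

lemma V_le_succ (s : ℕ → A) (k : ℕ) : V (F := F) s k ≤ V s (k+1) := by
  rw [V_succ]; exact le_sup_of_le_left le_sup_left

lemma V_mono (s : ℕ → A) : Monotone (V (F := F) s) := monotone_nat_of_le_succ (V_le_succ s)

lemma V_mul (s : ℕ → A) (k : ℕ) : V (F := F) s k * V s k ≤ V s (k+1) := by
  rw [V_succ]; exact le_sup_right

lemma mem_V (s : ℕ → A) (k : ℕ) : (s k : Unitization F A) ∈ V (F := F) s (k+1) := by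
  rw [V_succ]
  exact Submodule.mem_sup_left (Submodule.mem_sup_right (Submodule.mem_span_singleton_self _))

lemma V_fg (s : ℕ → A) (k : ℕ) : (V (F := F) s k).FG := by
  induction k with
  | zero => exact Submodule.fg_bot
  | succ k ih =>
    rw [V_succ]
    exact (ih.sup (Submodule.fg_span_singleton _)).sup (ih.mul ih)

lemma V_le (s : ℕ → A) (k : ℕ) : V (F := F) s k ≤ LinearMap.range (inrHom F F A) := by
  induction k with
  | zero => exact bot_le
  | succ k ih =>
    rw [V_succ]
    refine sup_le (sup_le ih ?_) ?_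
    · rw [Submodule.span_le]
      rintro _ rfl
      exact ⟨s k, rfl⟩
    · rw [Submodule.mul_le]
      intro x hx y hy
      obtain ⟨a, rfl⟩ := ih hx
      obtain ⟨b, rfl⟩ := ih hy
      exact ⟨a * b, by simp⟩

lemma exists_mem_V (s : ℕ → A) (hs : Submodule.span F (Set.range s) = ⊤) (a : A) :
    ∃ k, (a : Unitization F A) ∈ V (F := F) s k := by
  have ha : a ∈ Submodule.span F (Set.range s) := by rw [hs]; trivial
  induction ha using Submodule.span_induction with
  | mem x hx =>
    obtain ⟨k, rfl⟩ := hx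
    exact ⟨k+1, mem_V s k⟩
  | zero => exact ⟨0, by rw [inr_zero]; exact Submodule.zero_mem _⟩
  | add x y _ _ hx hy =>
    obtain ⟨k, hk⟩ := hx
    obtain ⟨l, hl⟩ := hy
    refine ⟨max k l, ?_⟩
    rw [inr_add]
    exact Submodule.add_mem _ (V_mono s (le_max_left k l) hk) (V_mono s (le_max_right k l) hl)
  | smul c x _ hx =>
    obtain ⟨k, hk⟩ := hx
    refine ⟨k, ?_⟩
    rw [inr_smul]
    exact Submodule.smul_mem _ _ hk

omit [IsScalarTower F A A] [SMulCommClass F A A] in
lemma exists_seq (hdim : Module.rank F A ≤ Cardinal.aleph0) :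
    ∃ s : ℕ → A, Submodule.span F (Set.range s) = ⊤ := by
  have b := Module.Free.chooseBasis F A
  have h1 : Countable (Module.Free.ChooseBasisIndex F A) := by
    rw [← Cardinal.mk_le_aleph0_iff, ← Module.Free.rank_eq_card_chooseBasisIndex]
    exact hdim
  have h2 : (insert 0 (Set.range b)).Countable := (Set.countable_range b).insert 0
  obtain ⟨s, hs⟩ := h2.exists_eq_range ⟨0, Set.mem_insert _ _⟩
  refine ⟨s, ?_⟩
  rw [← hs, Submodule.span_insert_zero, b.span_eq]

/-- The filtration, transported along every homomorphism. -/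
theorem exists_filtration [Uncountable F] (hnil : ∀ a : A, IsNilpotent (a : Unitization F A))
    (hdim : Module.rank F A ≤ Cardinal.aleph0) :
    ∃ n : ℕ → ℕ, ∀ (E : Type) [Ring E] [Algebra F E] (g : A →ₙₐ[F] E),
      ∃ U : ℕ → Submodule F E, Monotone U ∧ (∀ k, U k * U k ≤ U (k+1)) ∧ (∀ a, ∃ k, g a ∈ U k) ∧
        ∀ k, ∀ u ∈ U k, u ^ (n k) = 0 := by
  obtain ⟨s, hs⟩ := exists_seq (F := F) (A := A) hdim
  have h1 : ∀ k, ∃ N : ℕ, ∀ v ∈ V (F := F) s k, v ^ N = 0 := by
    intro k
    apply NilBound.exists_bound _ (V_fg s k)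
    intro v hv
    obtain ⟨a, rfl⟩ := V_le s k hv
    exact hnil a
  choose n hn using h1
  refine ⟨n, ?_⟩
  intro E _ _ g
  let G : Unitization F A →ₐ[F] E := Unitization.lift g
  have hG : ∀ a : A, G (a : Unitization F A) = g a := fun a => by
    simp [G]
  refine ⟨fun k => (V s k).map G.toLinearMap, ?_, ?_, ?_, ?_⟩
  · intro k l hkl
    exact Submodule.map_mono (V_mono s hkl)
  · intro k
    show (V s k).map G.toLinearMap * (V s k).map G.toLinearMap ≤ _
    rw [← Submodule.map_mul]
    exact Submodule.map_mono (V_mul s k)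
  · intro a
    obtain ⟨k, hk⟩ := exists_mem_V s hs a
    exact ⟨k, ⟨a, hk, hG a⟩⟩
  · rintro k _ ⟨v, hv, rfl⟩
    show (G v) ^ (n k) = 0
    rw [← map_pow, hn k v hv, map_zero]

end Pool.Agent.TH163.NilFilt
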