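import Mathlib

/-!
A wreath-type construction: from a nil (nonunital) subalgebra of `Q` and a linear map `γ : Q → S` with nilpotent values in a
commutative algebra we get a nil algebra of operators on `Hom(Q, S)`.
-/

set_option autoImplicit false

namespace Pool.Agent.TH163.Wreath

variable {K Q S : Type} [Field K] [Ring Q] [Algebra K Q] [CommRing S] [Algebra K S]

/-- translate of a functional -/
noncomputable def tr (γ : Q →ₗ[K] S) (d : Q) : Q →ₗ[K] S := γ ∘ₗ LinearMap.mulRight K d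

@[simp] lemma tr_apply (γ : Q →ₗ[K] S) (d b : Q) : tr γ d b = γ (b * d) := rfl

lemma tr_tr (γ : Q →ₗ[K] S) (d g : Q) : tr (tr γ d) g = tr γ (g * d) := by
  ext b; simp [mul_assoc]

/-- right translations as operators -/
noncomputable def Rr : Q →ₐ[K] Module.End K (Q →ₗ[K] S) where
  toFun g :=
    { toFun := fun φ => tr φ g
      map_add' := fun φ ψ => by ext b; simp
      map_smul' := fun c φ => by ext b; simp }
  map_one' := by ext φ b; simp
  map_mul' g h := by ext φ b; simp [mul_assoc]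
  map_zero' := by ext φ b; simp
  map_add' g h := by ext φ b; simp [mul_add]
  commutes' c := by ext φ b; simp [Algebra.algebraMap_eq_smul_one]

@[simp] lemma Rr_apply (g : Q) (φ : Q →ₗ[K] S) (b : Q) : (Rr g φ) b = φ (b * g) := rfl

/-- the operator `φ ↦ φ(b) s R_d γ` -/
noncomputable def Eop (γ : Q →ₗ[K] S) (b : Q) (s : S) (d : Q) : Module.End K (Q →ₗ[K] S) where
  toFun φ := (φ b * s) • tr γ d
  map_add' φ ψ := by ext a; simp [add_mul]
  map_smul' c φ := by ext a; simp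

@[simp] lemma Eop_apply (γ : Q →ₗ[K] S) (b : Q) (s : S) (d : Q) (φ : Q →ₗ[K] S) (a : Q) :
    (Eop γ b s d φ) a = φ b * s * γ (a * d) := rfl

variable (γ : Q →ₗ[K] S)

lemma Eop_mul_Eop (b b' : Q) (s s' : S) (d d' : Q) :
    Eop γ b s d * Eop γ b' s' d' = Eop γ b' (s * (s' * γ (b * d'))) d := by
  ext φ a
  simp only [Module.End.mul_apply, Eop_apply]
  ring

lemma Rr_mul_Eop (g b : Q) (s : S) (d : Q) : Rr g * Eop γ b s d = Eop γ b s (g * d) := by
  ext φ a
  simp [Module.End.mul_apply, mul_assoc]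

lemma Eop_mul_Rr (g b : Q) (s : S) (d : Q) : Eop γ b s d * Rr g = Eop γ (b * g) s d := by
  ext φ a
  simp [Module.End.mul_apply]

lemma Eop_zero (b d : Q) : Eop γ b 0 d = 0 := by
  ext φ a
  simp

/-- the span of the rank one operators -/
noncomputable def EE : Submodule K (Module.End K (Q →ₗ[K] S)) :=
  Submodule.span K {T | ∃ b s d, T = Eop γ b s d}

lemma Eop_mem (b : Q) (s : S) (d : Q) : Eop γ b s d ∈ EE γ := Submodule.subset_span ⟨b, s, d, rfl⟩

lemma EE_mul {T U : Module.End K (Q →ₗ[K] S)} (hT : T ∈ EE γ) (hU : U ∈ EE γ) : T * U ∈ EE γ := by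
  have h : EE γ * EE γ ≤ EE γ := by
    conv_lhs => rw [EE, Submodule.span_mul_span]
    rw [Submodule.span_le]
    rintro _ ⟨_, ⟨b, s, d, rfl⟩, _, ⟨b', s', d', rfl⟩, rfl⟩
    show Eop γ b s d * Eop γ b' s' d' ∈ EE γ
    rw [Eop_mul_Eop]
    exact Eop_mem γ _ _ _
  exact h (Submodule.mul_mem_mul hT hU)

lemma Rr_mul_EE (g : Q) {T : Module.End K (Q →ₗ[K] S)} (hT : T ∈ EE γ) : Rr g * T ∈ EE γ := by
  induction hT using Submodule.span_induction with
  | mem x hx =>
    obtain ⟨b, s, d, rfl⟩ := hx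
    rw [Rr_mul_Eop]; exact Eop_mem γ _ _ _
  | zero => rw [mul_zero]; exact Submodule.zero_mem _
  | add x y _ _ hx hy => rw [mul_add]; exact Submodule.add_mem _ hx hy
  | smul c x _ hx => rw [mul_smul_comm]; exact Submodule.smul_mem _ _ hx

lemma EE_mul_Rr (g : Q) {T : Module.End K (Q →ₗ[K] S)} (hT : T ∈ EE γ) : T * Rr g ∈ EE γ := by
  induction hT using Submodule.span_induction with
  | mem x hx =>
    obtain ⟨b, s, d, rfl⟩ := hx
    rw [Eop_mul_Rr]; exact Eop_mem γ _ _ _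
  | zero => rw [zero_mul]; exact Submodule.zero_mem _
  | add x y _ _ hx hy => rw [add_mul]; exact Submodule.add_mem _ hx hy
  | smul c x _ hx => rw [smul_mul_assoc]; exact Submodule.smul_mem _ _ hx

/-- finitely many rank one operators with coefficients in the power of an ideal -/
noncomputable def NN (bs ds : Finset Q) (J : Ideal S) (m : ℕ) :
    Submodule K (Module.End K (Q →ₗ[K] S)) :=
  Submodule.span K {T | ∃ b ∈ bs, ∃ s ∈ J ^ m, ∃ d ∈ ds, T = Eop γ b s d}

lemma exists_NN {T : Module.End K (Q →ₗ[K] S)} (hT : T ∈ EE γ) :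
    ∃ bs ds : Finset Q, ∀ J : Ideal S, T ∈ NN γ bs ds J 0 := by
  classical
  induction hT using Submodule.span_induction with
  | mem x hx =>
    obtain ⟨b, s, d, rfl⟩ := hx
    refine ⟨{b}, {d}, fun J => Submodule.subset_span ⟨b, by simp, s, by simp, d, by simp, rfl⟩⟩
  | zero => exact ⟨∅, ∅, fun J => Submodule.zero_mem _⟩
  | add x y _ _ hx hy =>
    obtain ⟨b1, d1, h1⟩ := hx
    obtain ⟨b2, d2, h2⟩ := hy
    refine ⟨b1 ∪ b2, d1 ∪ d2, fun J => Submodule.add_mem _ ?_ ?_⟩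
    · refine Submodule.span_mono ?_ (h1 J)
      rintro _ ⟨b, hb, s, hs, d, hd, rfl⟩
      exact ⟨b, Finset.mem_union_left _ hb, s, hs, d, Finset.mem_union_left _ hd, rfl⟩
    · refine Submodule.span_mono ?_ (h2 J)
      rintro _ ⟨b, hb, s, hs, d, hd, rfl⟩
      exact ⟨b, Finset.mem_union_right _ hb, s, hs, d, Finset.mem_union_right _ hd, rfl⟩
  | smul c x _ hx =>
    obtain ⟨bs, ds, h⟩ := hx
    exact ⟨bs, ds, fun J => Submodule.smul_mem _ _ (h J)⟩

lemma NN_mul (bs ds : Finset Q) (J : Ideal S) (hJ : ∀ b ∈ bs, ∀ d ∈ ds, γ (b * d) ∈ J) (m : ℕ) :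
    NN γ bs ds J 0 * NN γ bs ds J m ≤ NN γ bs ds J (m+1) := by
  conv_lhs => rw [NN, NN, Submodule.span_mul_span]
  rw [Submodule.span_le]
  rintro _ ⟨_, ⟨b, hb, s, _, d, hd, rfl⟩, _, ⟨b', hb', s', hs', d', hd', rfl⟩, rfl⟩
  show Eop γ b s d * Eop γ b' s' d' ∈ NN γ bs ds J (m+1)
  rw [Eop_mul_Eop]
  refine Submodule.subset_span ⟨b', hb', _, ?_, d, hd, rfl⟩
  apply Ideal.mul_mem_left
  rw [pow_succ]
  exact Ideal.mul_mem_mul hs' (hJ b hb d' hd')

lemma EE_nil (hγ : ∀ b, IsNilpotent (γ b)) {T : Module.End K (Q →ₗ[K] S)} (hT : T ∈ EE γ) :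
    IsNilpotent T := by
  classical
  obtain ⟨bs, ds, h⟩ := exists_NN γ hT
  let X : Set S := (fun p : Q × Q => γ (p.1 * p.2)) '' ((bs ×ˢ ds : Finset (Q × Q)) : Set (Q × Q))
  have hX : X.Finite := (Finset.finite_toSet _).image _
  let J : Ideal S := Ideal.span X
  have hJfg : J.FG := ⟨hX.toFinset, by simp [J]⟩
  have hJ : ∀ b ∈ bs, ∀ d ∈ ds, γ (b * d) ∈ J := fun b hb d hd =>
    Ideal.subset_span ⟨(b, d), by simp [hb, hd], rfl⟩
  have hJn : IsNilpotent J := by
    rw [Ideal.FG.isNilpotent_iff_le_nilradical hJfg, Ideal.span_le]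
    rintro _ ⟨p, _, rfl⟩
    exact mem_nilradical.mpr (hγ _)
  obtain ⟨m, hm⟩ := hJn
  have h2 : ∀ n, T ^ (n+1) ∈ NN γ bs ds J n := by
    intro n
    induction n with
    | zero => rw [zero_add, pow_one]; exact h J
    | succ n ih =>
      rw [pow_succ']
      exact NN_mul γ bs ds J hJ n (Submodule.mul_mem_mul (h J) ih)
  refine ⟨m+1, ?_⟩
  have h3 : NN γ bs ds J m ≤ ⊥ := by
    rw [NN, Submodule.span_le]
    rintro _ ⟨b, _, s, hs, d, _, rfl⟩
    rw [hm] at hs
    have : s = 0 := by simpa using hs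
    rw [this, Eop_zero]
    simp
  simpa using h3 (h2 m)

/-- The operators `R_g + κ`. -/
noncomputable def B0 (Qp : Submodule K Q) (hmul : ∀ a ∈ Qp, ∀ b ∈ Qp, a * b ∈ Qp) :
    NonUnitalSubalgebra K (Module.End K (Q →ₗ[K] S)) where
  carrier := {T | ∃ g ∈ Qp, ∃ κ ∈ EE γ, T = Rr g + κ}
  add_mem' := by
    rintro _ _ ⟨g, hg, κ, hκ, rfl⟩ ⟨g', hg', κ', hκ', rfl⟩
    refine ⟨g + g', Submodule.add_mem _ hg hg', κ + κ', Submodule.add_mem _ hκ hκ', ?_⟩
    rw [map_add]; abel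
  zero_mem' := ⟨0, Submodule.zero_mem _, 0, Submodule.zero_mem _, by simp⟩
  mul_mem' := by
    rintro _ _ ⟨g, hg, κ, hκ, rfl⟩ ⟨g', hg', κ', hκ', rfl⟩
    refine ⟨g * g', hmul _ hg _ hg', Rr g * κ' + κ * Rr g' + κ * κ',
      Submodule.add_mem _ (Submodule.add_mem _ (Rr_mul_EE γ _ hκ') (EE_mul_Rr γ _ hκ))
        (EE_mul γ hκ hκ'), ?_⟩
    rw [map_mul]; noncomm_ring
  smul_mem' := by
    rintro c _ ⟨g, hg, κ, hκ, rfl⟩
    refine ⟨c • g, Submodule.smul_mem _ _ hg, c • κ, Submodule.smul_mem _ _ hκ, ?_⟩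
    rw [map_smul, smul_add]

lemma B0_nil (hγ : ∀ b, IsNilpotent (γ b)) (Qp : Submodule K Q)
    (hmul : ∀ a ∈ Qp, ∀ b ∈ Qp, a * b ∈ Qp) (hnil : ∀ a ∈ Qp, IsNilpotent a)
    {T : Module.End K (Q →ₗ[K] S)} (hT : T ∈ B0 γ Qp hmul) : IsNilpotent T := by
  obtain ⟨g, hg, κ, hκ, rfl⟩ := hT
  obtain ⟨N, hN⟩ := hnil g hg
  have h : ∀ n, ∃ κ' ∈ EE γ, (Rr g + κ) ^ n = Rr (g^n) + κ' := by
    intro n
    induction n with
    | zero => exact ⟨0, Submodule.zero_mem _, by simp⟩
    | succ n ih =>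
      obtain ⟨κ', hκ', h⟩ := ih
      refine ⟨Rr (g^n) * κ + κ' * Rr g + κ' * κ,
        Submodule.add_mem _ (Submodule.add_mem _ (Rr_mul_EE γ _ hκ) (EE_mul_Rr γ _ hκ'))
        (EE_mul γ hκ' hκ), ?_⟩
      rw [pow_succ, h, pow_succ, map_mul]; noncomm_ring
  obtain ⟨κ', hκ', h1⟩ := h N
  rw [hN, map_zero, zero_add] at h1
  obtain ⟨m, hm⟩ := EE_nil γ hγ hκ'
  exact ⟨N * m, by rw [pow_mul, h1, hm]⟩

/-- The key computation: a power of `c R_w` vanishes only if a power of `γ w` does. -/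
lemma pow_apply (w : Q) (m : ℕ) :
    ((Eop γ 1 1 1 * Rr w) ^ m : Module.End K (Q →ₗ[K] S)) γ = (γ w) ^ m • γ := by
  induction m with
  | zero => simp
  | succ m ih =>
    rw [pow_succ', Module.End.mul_apply, ih]
    ext a
    simp [Module.End.mul_apply, pow_succ, mul_assoc]

lemma pow_eq_zero (w : Q) (m : ℕ) (h : (Eop γ 1 1 1 * Rr w) ^ m = 0) : (γ w) ^ (m+1) = 0 := by
  have h1 := pow_apply γ w m
  rw [h] at h1
  have h2 := congrArg (fun φ : Q →ₗ[K] S => φ w) h1
  simp only [LinearMap.zero_apply, LinearMap.smul_apply, smul_eq_mul] at h2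
  rw [pow_succ, ← h2]

/-- A finitely generated algebra has countable dimension. -/
lemma adjoin_rank {E : Type} [Ring E] [Algebra K E] (X : Set E) (hX : X.Countable) :
    Module.rank K (NonUnitalAlgebra.adjoin K X) ≤ Cardinal.aleph0 := by
  have h1 : (Subsemigroup.closure X : Set E).Countable := by
    have h2 : (Subsemigroup.closure X : Set E) ⊆ (Submonoid.closure X : Set E) := by
      have : Subsemigroup.closure X ≤ (Submonoid.closure X).toSubsemigroup :=
        Subsemigroup.closure_le.mpr Submonoid.subset_closure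
      exact this
    refine Set.Countable.mono h2 ?_
    rw [Submonoid.closure_eq_mrange]
    have : Countable X := hX
    have h3 : Countable (FreeMonoid X) := (inferInstance : Countable (List X))
    exact Set.countable_range _
  have h4 : Module.rank K (Submodule.span K (Subsemigroup.closure X : Set E)) ≤ Cardinal.aleph0 := by
    refine (rank_span_le _).trans ?_
    rw [Cardinal.mk_le_aleph0_iff]
    exact h1
  rw [← NonUnitalAlgebra.adjoin_eq_span] at h4
  exact h4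

end Pool.Agent.TH163.Wreath
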