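import Mathlib
import Pool.Agent.TH163.NilFilt
import Pool.Agent.TH163.GolodAny
import Pool.Agent.TH163.Wreath

/-!
No nil algebra of countable dimension over an uncountable field maps onto all finitely generated nil algebras.
-/

set_option autoImplicit false

namespace Pool.Agent.TH163.NilUncountable

open Pool.Agent.TH163.Wreath Polynomial

/-- A linear map with nilpotent values of prescribed nilpotency index on a linearly independent sequence. -/
theorem exists_gamma (K : Type) [Field K] (Q : Type) [Ring Q] [Algebra K Q] (w : ℕ → Q)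
    (hw : LinearIndependent K w) (m : ℕ → ℕ) :
    ∃ (S : Type) (_ : CommRing S) (_ : Algebra K S) (γ : Q →ₗ[K] S),
      (∀ b, IsNilpotent (γ b)) ∧ ∀ j, γ (w j) ^ (m j + 1) ≠ 0 := by
  classical
  let S : Type := (j : ℕ) → AdjoinRoot (X ^ (m j + 2) : K[X])
  let N : Submodule K S := (nilradical S).restrictScalars K
  have hc : ∀ j, (Pi.single j (AdjoinRoot.root (X ^ (m j + 2) : K[X])) : S) ∈ N := by
    intro j
    show _ ∈ nilradical S
    rw [mem_nilradical]
    refine ⟨m j + 2, ?_⟩
    funext i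
    by_cases h : i = j
    · subst h
      rw [Pi.pow_apply, Pi.single_eq_same, Pi.zero_apply, ← AdjoinRoot.mk_X, ← map_pow,
        AdjoinRoot.mk_self]
    · rw [Pi.pow_apply, Pi.single_eq_of_ne h, Pi.zero_apply, zero_pow (by omega)]
  let c : ℕ → N := fun j => ⟨Pi.single j (AdjoinRoot.root (X ^ (m j + 2) : K[X])), hc j⟩
  obtain ⟨g, hg⟩ := LinearMap.exists_leftInverse_of_injective (Finsupp.linearCombination K w)
    (LinearMap.ker_eq_bot.mpr hw)
  let γ : Q →ₗ[K] S := N.subtype ∘ₗ (Finsupp.linearCombination K c) ∘ₗ g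
  refine ⟨S, inferInstance, inferInstance, γ, ?_, ?_⟩
  · intro b
    exact mem_nilradical.mp ((Finsupp.linearCombination K c) (g b)).2
  · intro j h
    have h1 : γ (w j) = Pi.single j (AdjoinRoot.root (X ^ (m j + 2) : K[X])) := by
      have h2 : g (w j) = Finsupp.single j 1 := by
        have h3 := LinearMap.congr_fun hg (Finsupp.single j 1)
        simpa using h3
      simp [γ, h2, c]
    rw [h1] at h
    have h4 := congrFun h j
    rw [Pi.pow_apply, Pi.single_eq_same, Pi.zero_apply, ← AdjoinRoot.mk_X, ← map_pow,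
      AdjoinRoot.mk_eq_zero] at h4
    rw [pow_dvd_pow_iff X_ne_zero not_isUnit_X] at h4
    omega

lemma list_prod_mem {F E : Type} [Field F] [Ring E] [Algebra F E] (U : ℕ → Submodule F E)
    (hU : ∀ k, U k * U k ≤ U (k+1)) (X : Set E) (k0 : ℕ) (hX : ∀ x ∈ X, x ∈ U k0) (j : ℕ) :
    ∀ l : List E, (∀ x ∈ l, x ∈ X) → l.length = 2 ^ j → l.prod ∈ U (k0 + j) := by
  induction j with
  | zero =>
    intro l hl h1
    rw [pow_zero, List.length_eq_one_iff] at h1
    obtain ⟨a, rfl⟩ := h1
    rw [List.prod_singleton, add_zero]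
    exact hX _ (hl a (by simp))
  | succ j ih =>
    intro l hl h1
    rw [← List.take_append_drop (2^j) l, List.prod_append, ← add_assoc]
    refine hU _ (Submodule.mul_mem_mul (ih _ (fun x hx => hl x (List.mem_of_mem_take hx)) ?_)
      (ih _ (fun x hx => hl x (List.mem_of_mem_drop hx)) ?_))
    · rw [List.length_take, h1, pow_succ]; omega
    · rw [List.length_drop, h1, pow_succ]; omega

open Pool.Agent.Helper884.Golod in
/-- **Main theorem over uncountable fields.** -/
theorem main (F : Type) [Field F] [Uncountable F] (A : Type) [NonUnitalRing A] [Module F A]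
    [IsScalarTower F A A] [SMulCommClass F A A]
    (hnil : ∀ a : A, IsNilpotent (a : Unitization F A))
    (hdim : Module.rank F A ≤ Cardinal.aleph0) :
    ∃ (E : Type) (_ : Ring E) (_ : Algebra F E) (B : NonUnitalSubalgebra F E),
      Module.rank F B ≤ Cardinal.aleph0 ∧ (∀ b : B, IsNilpotent (b : E)) ∧
        ¬ ∃ f : A →ₙₐ[F] B, Function.Surjective f := by
  classical
  obtain ⟨n, hn⟩ := NilFilt.exists_filtration (F := F) (A := A) hnil hdim
  obtain ⟨I, hI, hInil, hIcomp, hIw⟩ := GolodAny.golod_any F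
  choose wd hwd1 hwd2 using hIw
  let q : T F →ₐ[F] T F ⧸ I := Ideal.Quotient.mkₐ F I
  have hq : Function.Surjective q := Ideal.Quotient.mk_surjective
  have hq0 : ∀ f, q f = 0 ↔ f ∈ I := fun f => Ideal.Quotient.eq_zero_iff_mem
  let w : ℕ → T F ⧸ I := fun j => q (MonoidAlgebra.single (wd (2^j - 1)) 1)
  have hw : LinearIndependent F w := by
    rw [linearIndependent_iff']
    intro s g hg i hi
    have h1 : (∑ j ∈ s, g j • (MonoidAlgebra.single (wd (2^j - 1)) 1 : T F)) ∈ I := by
      rw [← hq0, map_sum, ← hg]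
      apply Finset.sum_congr rfl
      intro j _
      rw [map_smul]
    have h2 := hIcomp _ h1 (2^i - 1)
    rw [map_sum, Finset.sum_eq_single i] at h2
    · by_contra hne
      apply hwd2 (2^i - 1)
      rw [map_smul, comp_of_mem_D (n := 2^i - 1) (by
        rw [D_eq_span]; exact Submodule.subset_span ⟨_, hwd1 _, rfl⟩), if_pos rfl] at h2
      rw [← hq0] at h2 ⊢
      rw [map_smul] at h2
      exact (smul_eq_zero.mp h2).resolve_left hne
    · intro j _ hj
      rw [map_smul, comp_of_mem_D (n := 2^j - 1) (by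
        rw [D_eq_span]; exact Submodule.subset_span ⟨_, hwd1 _, rfl⟩), if_neg, smul_zero]
      intro h
      have h3 : 2^i = 2^j := by
        have := Nat.one_le_two_pow (n := i)
        have := Nat.one_le_two_pow (n := j)
        omega
      exact hj (Nat.pow_right_injective le_rfl h3).symm
    · intro h; exact absurd hi h
  obtain ⟨S, _, _, γ, hγ, hγw⟩ := exists_gamma F (T F ⧸ I) w hw (fun j => n (j + j))
  let Qp : Submodule F (T F ⧸ I) := (Ge F 1).map q.toLinearMap
  have hQmul : ∀ a ∈ Qp, ∀ b ∈ Qp, a * b ∈ Qp := by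
    rintro _ ⟨a, ha, rfl⟩ _ ⟨b, hb, rfl⟩
    refine ⟨a * b, Ge_anti (by omega) (Ge_mul ha hb), ?_⟩
    show q (a * b) = q a * q b
    rw [map_mul]
  have hQnil : ∀ a ∈ Qp, IsNilpotent a := by
    rintro _ ⟨a, ha, rfl⟩
    obtain ⟨N, hN⟩ := hInil a ha
    refine ⟨N, ?_⟩
    show (q a) ^ N = 0
    rw [← map_pow]
    exact (hq0 _).mpr hN
  let x : Fin 2 → T F ⧸ I := fun i => q (MonoidAlgebra.single (FreeMonoid.of i) 1)
  have hx : ∀ i, x i ∈ Qp := by
    intro i
    refine ⟨MonoidAlgebra.single (FreeMonoid.of i) 1, ?_, rfl⟩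
    rw [SetLike.mem_coe, mem_Ge_one_iff, aug_apply, MonoidAlgebra.coeff_single,
      Finsupp.single_apply, if_neg (FreeMonoid.of_ne_one _)]
  let c : Module.End F ((T F ⧸ I) →ₗ[F] S) := Eop γ 1 1 1
  let X : Set (Module.End F ((T F ⧸ I) →ₗ[F] S)) := insert c (Set.range (fun i => Rr (x i)))
  have hXfin : X.Finite := (Set.finite_range _).insert _
  let B := NonUnitalAlgebra.adjoin F X
  have hBle : B ≤ B0 γ Qp hQmul := by
    apply NonUnitalAlgebra.adjoin_le
    rintro y hy
    rcases hy with rfl | ⟨i, rfl⟩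
    · exact ⟨0, Submodule.zero_mem _, c, Eop_mem γ _ _ _, by simp⟩
    · exact ⟨x i, hx i, 0, Submodule.zero_mem _, by simp⟩
  refine ⟨Module.End F ((T F ⧸ I) →ₗ[F] S), inferInstance, inferInstance, B,
    adjoin_rank X hXfin.countable, fun b => B0_nil γ hγ Qp hQmul hQnil (hBle b.2), ?_⟩
  rintro ⟨f, hf⟩
  obtain ⟨U, hUmono, hUmul, hUex, hUnil⟩ := hn _ ((NonUnitalSubalgebraClass.subtype B).comp f)
  -- all generators lie in one step of the filtration
  have h1 : ∀ y : X, ∃ k, (y : Module.End F ((T F ⧸ I) →ₗ[F] S)) ∈ U k := by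
    rintro ⟨y, hy⟩
    obtain ⟨a, ha⟩ := hf ⟨y, NonUnitalAlgebra.subset_adjoin F hy⟩
    obtain ⟨k, hk⟩ := hUex a
    refine ⟨k, ?_⟩
    have h2 : ((NonUnitalSubalgebraClass.subtype B).comp f) a = y := by
      show ((f a : B) : Module.End F ((T F ⧸ I) →ₗ[F] S)) = y
      rw [ha]
    rwa [h2] at hk
  choose κ hκ using h1
  have : Finite X := hXfin
  obtain ⟨k0, hk0⟩ : ∃ k0, ∀ y ∈ X, y ∈ U k0 := by
    obtain ⟨M, hM⟩ := (Set.finite_range κ).bddAbove
    exact ⟨M, fun y hy => hUmono (hM ⟨⟨y, hy⟩, rfl⟩) (hκ ⟨y, hy⟩)⟩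
  -- the long product
  let wrd := wd (2^k0 - 1)
  have hprod : ∀ v : FreeMonoid (Fin 2),
      (v.toList.map (fun i => (Rr (x i) : Module.End F ((T F ⧸ I) →ₗ[F] S)))).prod =
        Rr (q (MonoidAlgebra.single v 1)) := by
    intro v
    induction v using FreeMonoid.recOn with
    | one =>
      have : (MonoidAlgebra.single (1 : FreeMonoid (Fin 2)) (1:F)) = 1 := rfl
      simp [this]
    | of_mul y ys ih =>
      have h3 : (MonoidAlgebra.single (FreeMonoid.of y * ys) (1:F)) =
        MonoidAlgebra.single (FreeMonoid.of y) 1 * MonoidAlgebra.single ys 1 := by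
        rw [MonoidAlgebra.single_mul_single, one_mul]
      rw [h3, map_mul q, map_mul Rr, ← ih, FreeMonoid.toList_mul, FreeMonoid.toList_of,
        List.map_append, List.prod_append]
      simp [x]
  have hmem := list_prod_mem U hUmul X k0 hk0 k0
    (c :: (wrd.toList.map (fun i => (Rr (x i) : Module.End F ((T F ⧸ I) →ₗ[F] S))))) (by
      intro y hy
      rw [List.mem_cons, List.mem_map] at hy
      rcases hy with rfl | ⟨i, _, rfl⟩
      · exact Set.mem_insert _ _
      · exact Set.mem_insert_of_mem _ ⟨i, rfl⟩) (by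
      rw [List.length_cons, List.length_map]
      have h4 : wrd.toList.length = 2^k0 - 1 := hwd1 _
      rw [h4]
      have := Nat.one_le_two_pow (n := k0)
      omega)
  rw [List.prod_cons, hprod] at hmem
  have h5 := hUnil _ _ hmem
  exact hγw k0 (pow_eq_zero γ (w k0) _ h5)

end Pool.Agent.TH163.NilUncountable
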